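import Mathlib
import Pool.Agent.H302R8.Main

/-!
# Heilbronn functions which are sums of monomial characters

`Pool.Agent.H302R2.IsHeilbronn θ` says that `θ` is a class function on a group whose
restriction to every subgroup `H` has a nonnegative integer multiplicity against every linear
character of `H`.  `Pool.Agent.H302R8.indLin H ψ` is the character induced from the linear
character `ψ` of the subgroup `H`.

Let `G` be a finite group with a chain of normal subgroups `1 = N 0 ≤ N 1 ≤ … ≤ N l = G` in which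
every factor `N (j+1) / N j` is abelian or a product of alternating groups `A_n` such that, with
`r = θ 1`, one has `r < 2 ^ ⌊n / 4⌋` and `r < (2^k - 1) * ⌊n / 2^k⌋` for some `k ≥ 2`.  Assume that
for every solvable quotient `G / G^(i)` and all primes `p ≠ q` with `q` dividing its order,
`p ^ e ≤ r` and `q ∣ p ^ (2 e) - 1` for some `e ≥ 1`, the Sylow `p`-subgroups of this quotient are
abelian.  Then `θ` is a sum of monomial characters.
-/

set_option autoImplicit false

universe u

theorem Pool.Agent.Results.MP_d2121a_nt.HeilbronnMonomial.result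
    (G : Type u) [Group G] [Finite G] (θ : G → ℂ) (hθ : Pool.Agent.H302R2.IsHeilbronn θ) (r : ℕ)
    (hr : θ 1 = r) (l : ℕ) (N : ℕ → Subgroup G) (h0 : N 0 = ⊥) (hl : N l = ⊤)
    (hnorm : ∀ j ≤ l, (N j).Normal) (hle : ∀ j < l, N j ≤ N (j + 1))
    (hlayer : ∀ j < l, (∀ a ∈ N (j + 1), ∀ b ∈ N (j + 1), a * b * a⁻¹ * b⁻¹ ∈ N j) ∨
      ∃ (m : ℕ) (n k : Fin m → ℕ)
        (f : N (j + 1) →* (∀ i : Fin m, alternatingGroup (Fin (n i)))),
        (∀ i, r < 2 ^ (n i / 4) ∧ 2 ≤ k i ∧ r < (2 ^ k i - 1) * (n i / 2 ^ k i)) ∧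
        Function.Surjective f ∧ f.ker = (N j).subgroupOf (N (j + 1)))
    (hprime : ∀ i p q e : ℕ, p.Prime → q.Prime → p ≠ q →
      q ∣ Nat.card (G ⧸ derivedSeries G i) → 0 < e → p ^ e ≤ r → q ∣ p ^ (2 * e) - 1 →
      ∀ P : Sylow p (G ⧸ derivedSeries G i), ∀ a ∈ P, ∀ b ∈ P, a * b = b * a) :
    ∃ L : List (Σ H : Subgroup G, (H →* ℂˣ)),
      ∀ g, θ g = (L.map fun x => Pool.Agent.H302R8.indLin x.1 x.2 g).sum :=
  Pool.Agent.H302R8.main_mono G θ hθ r hr l N h0 hl hnorm hle hlayer hprime
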