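import Mathlib
import Pool.Agent.H302R2.RepTwo

/-!
# Heilbronn functions of degree two and the quaternion character

`Pool.Agent.H302R2.IsHeilbronn θ` says that `θ` is a class function on a group whose
restriction to every subgroup `H` has a nonnegative integer multiplicity against every linear
character of `H`.

On an arbitrary finite group `G`, such a function of degree two is the character of a
two-dimensional representation, unless some subgroup `H` of a Sylow `2`-subgroup of `G` has a
surjection `f` onto the quaternion group `Q₈` of order eight such that `θ` restricted to `H` is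
`χ ∘ f`, where `χ` (`Pool.Agent.H302R2.quatChar`) is the character of the two-dimensional
irreducible representation of `Q₈`.
-/

set_option autoImplicit false

universe u

theorem Pool.Agent.Results.MP_d2121a_nt.HeilbronnQuaternion.result
    (G : Type u) [Group G] [Finite G] (θ : G → ℂ) (hθ : Pool.Agent.H302R2.IsHeilbronn θ)
    (h2 : θ 1 = 2) (S : Sylow 2 G) :
    (∃ ρ : G →* GL (Fin 2) ℂ,
      ∀ g, θ g = ((ρ g : GL (Fin 2) ℂ) : Matrix (Fin 2) (Fin 2) ℂ).trace) ∨
    ∃ (H : Subgroup G) (f : H →* QuaternionGroup 2), H ≤ S ∧ Function.Surjective f ∧
      ∀ h : H, θ h = Pool.Agent.H302R2.quatChar (f h) :=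
  Pool.Agent.H302R2.rep_two_or hθ h2 S
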