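import Mathlib
import Pool.Agent.H302R2.SLMain

/-!
# Heilbronn functions of small degree on quotients of SL(n,q), q even

`Pool.Agent.H302R2.IsHeilbronn θ` says that `θ` is a class function on a group whose
restriction to every subgroup `H` has a nonnegative integer multiplicity against every linear
character of `H`.

If `F` is a finite field of characteristic two with `q` elements and `G` is a quotient of
`SL(n,F)` (for instance `SL(n,q)` or `PSL(n,q)`), such a function with
`θ 1 < q ^ (n - 1) - 1` is constant on `G`.
-/

set_option autoImplicit false

universe u w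

theorem Pool.Agent.Results.MP_d2121a_nt.HeilbronnSL.result
    (F : Type u) [Field F] [Finite F] [CharP F 2] (n : ℕ) (G : Type w) [Group G] [Finite G]
    (π : Matrix.SpecialLinearGroup (Fin n) F →* G) (hπ : Function.Surjective π)
    (θ : G → ℂ) (hθ : Pool.Agent.H302R2.IsHeilbronn θ) (r : ℕ) (hr : θ 1 = r)
    (hlt : r < Nat.card F ^ (n - 1) - 1) (g : G) : θ g = r :=
  Pool.Agent.H302R2.SL_const n π hπ hθ hr hlt g
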